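import Pool.Agent.Helper98.HJ.Deduce

namespace Pool.Agent.Results.MP_e2bfb0_ag.HyperellipticClasses

open Pool.Agent.Helper98.HJ

/-- For `k` the field with `2^r` elements and `T` the data of the abelian threefolds over `k`
(with the theorems of the literature listed in `Threefolds`), every isogeny class with first slope
`1/3` contains the Jacobian of a hyperelliptic curve `y^2 + y = f(x)` with `deg f = 7`. -/
theorem result (k : Type) [Field k] [Finite k] [CharP k 2] (r : ℕ) (hk : Nat.card k = 2 ^ r)
    (K V : Type) [Field K] [Algebra (WittVector 2 k) K] [IsFractionRing (WittVector 2 k) K]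
    [AddCommGroup V] [Module K V] [FiniteDimensional K V] [Module (WittVector 2 k) V]
    [IsScalarTower (WittVector 2 k) K V] (T : Threefolds k r K V) :
    ∀ w ∈ T.classes, FirstSlope 2 r w → IsHyperelliptic k w :=
  fun w hw hs => hyperelliptic_of_threefolds k r hk K V T w hw hs

end Pool.Agent.Results.MP_e2bfb0_ag.HyperellipticClasses
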