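import Pool.Agent.Helper98.HJ.Witt

namespace Pool.Agent.Results.MP_e2bfb0_ag.SelfDualLattice

open Pool.Agent.Helper98.HJ

/-- Let `k` be the field with `q = p^r` elements, `K` the field of fractions of `W(k)` and `D` a
polarised isocrystal over `k`, on the `K`-vector space `V`, whose `F^r` has the characteristic
polynomial `x^6 + s x^5 + t x^4 + u x^3 + q t x^2 + q^2 s x + q^3` (`w = (s, t, u)`) with first
slope `1/3`. Then `D` contains a self-dual Dieudonné lattice of `a`-number at least `2`. -/
theorem result (p : ℕ) [Fact p.Prime] (k : Type) [Field k] [Finite k] [CharP k p] (r : ℕ)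
    (hk : Nat.card k = p ^ r)
    (K V : Type) [Field K] [Algebra (WittVector p k) K] [IsFractionRing (WittVector p k) K]
    [AddCommGroup V] [Module K V] [FiniteDimensional K V] [Module (WittVector p k) V]
    [IsScalarTower (WittVector p k) K V]
    (D : PolIsocrystal p k K V) (w : ℤ × ℤ × ℤ) (hD : D.HasWeil r w) (hw : FirstSlope p r w) :
    ∃ M : Submodule (WittVector p k) V, D.IsSelfDual M ∧ 2 ≤ D.aNumber M :=
  exists_lattice p k r hk K V D w hD hw

end Pool.Agent.Results.MP_e2bfb0_ag.SelfDualLattice
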